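import Mathlib

set_option autoImplicit false

namespace Pool.Agent.H.MP_ba31d6_gt

open Finset Polynomial
open scoped RealInnerProductSpace

lemma welch {ι V : Type*} [NormedAddCommGroup V] [InnerProductSpace ℝ V] [FiniteDimensional ℝ V]
    (U : Finset ι) (x : ι → V) :
    (∑ i ∈ U, ⟪x i, x i⟫) ^ 2 ≤ (Module.finrank ℝ V : ℝ) * ∑ i ∈ U, ∑ j ∈ U, ⟪x i, x j⟫ ^ 2 := by
  set b := stdOrthonormalBasis ℝ V
  set y : ι → Fin (Module.finrank ℝ V) → ℝ := fun i a => ⟪b a, x i⟫ with hy
  have hin : ∀ i j, ⟪x i, x j⟫ = ∑ a, y i a * y j a := by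
    intro i j
    rw [← b.sum_inner_mul_inner]
    exact Finset.sum_congr rfl fun a _ => by simp only [hy]; rw [real_inner_comm]
  set T : Fin (Module.finrank ℝ V) → Fin (Module.finrank ℝ V) → ℝ :=
    fun a c => ∑ i ∈ U, y i a * y i c with hT
  have h1 : ∑ i ∈ U, ⟪x i, x i⟫ = ∑ a, T a a := by
    simp only [hin, hT]
    exact Finset.sum_comm
  have h2 : ∑ i ∈ U, ∑ j ∈ U, ⟪x i, x j⟫ ^ 2 = ∑ a, ∑ c, T a c ^ 2 := by
    have e1 : ∀ i j, ⟪x i, x j⟫ ^ 2 = ∑ a, ∑ c, (y i a * y i c) * (y j a * y j c) := by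
      intro i j
      rw [hin, sq, Finset.sum_mul_sum]
      exact Finset.sum_congr rfl fun a _ => Finset.sum_congr rfl fun c _ => by ring
    have e2 : ∀ a c, T a c ^ 2 = ∑ i ∈ U, ∑ j ∈ U, (y i a * y i c) * (y j a * y j c) := by
      intro a c
      rw [hT, sq, Finset.sum_mul_sum]
    simp only [e1, e2]
    calc ∑ i ∈ U, ∑ j ∈ U, ∑ a, ∑ c, (y i a * y i c) * (y j a * y j c)
        = ∑ i ∈ U, ∑ a, ∑ c, ∑ j ∈ U, (y i a * y i c) * (y j a * y j c) := by
          refine Finset.sum_congr rfl fun i _ => ?_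
          rw [Finset.sum_comm]
          exact Finset.sum_congr rfl fun a _ => Finset.sum_comm
      _ = _ := by
          rw [Finset.sum_comm]
          exact Finset.sum_congr rfl fun a _ => Finset.sum_comm
  have h3 : ∑ a, T a a ^ 2 ≤ ∑ a, ∑ c, T a c ^ 2 :=
    Finset.sum_le_sum fun a _ =>
      Finset.single_le_sum (f := fun c => T a c ^ 2) (fun c _ => sq_nonneg _) (mem_univ a)
  have h4 := sq_sum_le_card_mul_sum_sq (s := (univ : Finset (Fin (Module.finrank ℝ V))))
    (f := fun a => T a a)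
  rw [Finset.card_univ, Fintype.card_fin] at h4
  rw [h1, h2]
  exact h4.trans (mul_le_mul_of_nonneg_left h3 (Nat.cast_nonneg _))

/-- Equiangular families: the relative bound. -/
lemma relbound {V : Type*} [NormedAddCommGroup V] [InnerProductSpace ℝ V] [FiniteDimensional ℝ V]
    {n : ℕ} (hn : 0 < n) (x : Fin n → V) (c : ℝ) (h1 : ∀ i, ⟪x i, x i⟫ = 1)
    (h2 : ∀ i j, i ≠ j → |⟪x i, x j⟫| = c) :
    (n : ℝ) ≤ (Module.finrank ℝ V : ℝ) * (1 + (n - 1) * c ^ 2) := by
  have h := welch univ x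
  have e : ∀ i, ∑ j, ⟪x i, x j⟫ ^ 2 = 1 + (n - 1) * c ^ 2 := by
    intro i
    rw [← Finset.add_sum_erase _ _ (mem_univ i), h1]
    have : ∀ j ∈ univ.erase i, ⟪x i, x j⟫ ^ 2 = c ^ 2 := fun j hj => by
      rw [← h2 i j (ne_of_mem_erase hj).symm, sq_abs]
    rw [Finset.sum_congr rfl this, Finset.sum_const, Finset.card_erase_of_mem (mem_univ i),
      Finset.card_univ, Fintype.card_fin, nsmul_eq_mul, Nat.cast_sub hn]
    simp
  simp only [h1, e, Finset.sum_const, Finset.card_univ, Fintype.card_fin, nsmul_eq_mul,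
    mul_one] at h
  have hn' : (0 : ℝ) < n := by exact_mod_cast hn
  nlinarith

/-- An eigenvalue of an integer matrix with multiplicity above one half is an integer. -/
lemma neumann {n : ℕ} (A : Matrix (Fin n) (Fin n) ℤ) (μ : ℝ) (m : ℕ) (hm : n < 2 * m)
    (h : m ≤ Module.finrank ℝ
      (Module.End.eigenspace (Matrix.toLin' (A.map (Int.castRingHom ℝ))) μ)) :
    ∃ k : ℤ, μ = k := by
  have hχ : A.charpoly.Monic := A.charpoly_monic
  have hdeg : A.charpoly.natDegree = n := by simp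
  have h1 : m ≤ (A.charpoly.map (Int.castRingHom ℝ)).rootMultiplicity μ := by
    have := LinearMap.finrank_eigenspace_le (Matrix.toLin' (A.map (Int.castRingHom ℝ))) μ
    rw [Matrix.charpoly_toLin', Matrix.charpoly_map] at this
    exact h.trans this
  have hm0 : 0 < m := by omega
  have hR0 : A.charpoly.map (Int.castRingHom ℝ) ≠ 0 := (hχ.map _).ne_zero
  have h2 : ∀ j ≤ m - 1, aeval μ (derivative^[j] (A.charpoly.map (Int.castRingHom ℚ))) = 0 := by
    intro j hj
    have := (lt_rootMultiplicity_iff_isRoot_iterate_derivative (t := μ) (n := m - 1) hR0).1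
      (by omega) j hj
    rw [iterate_derivative_map] at this ⊢
    rw [IsRoot.def, eval_map] at this
    rw [aeval_def, eval₂_map, RingHom.ext_int ((algebraMap ℚ ℝ).comp (Int.castRingHom ℚ))
      (Int.castRingHom ℝ)]
    exact this
  have hint : IsIntegral ℤ μ := by
    refine ⟨A.charpoly, hχ, ?_⟩
    have := h2 0 (Nat.zero_le _)
    rw [Function.iterate_zero_apply, aeval_def, eval₂_map,
      RingHom.ext_int ((algebraMap ℚ ℝ).comp (Int.castRingHom ℚ)) (algebraMap ℤ ℝ)] at this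
    exact this
  have hintQ : IsIntegral ℚ μ := hint.tower_top
  have hroot : ∀ z : ℂ, aeval z (minpoly ℚ μ) = 0 →
      (X - C z) ^ m ∣ A.charpoly.map (Int.castRingHom ℂ) := by
    intro z hz
    have hC0 : A.charpoly.map (Int.castRingHom ℂ) ≠ 0 := (hχ.map _).ne_zero
    have : m - 1 < (A.charpoly.map (Int.castRingHom ℂ)).rootMultiplicity z := by
      rw [lt_rootMultiplicity_iff_isRoot_iterate_derivative hC0]
      intro j hj
      obtain ⟨q, hq⟩ := minpoly.dvd ℚ μ (h2 j hj)
      have e : aeval z (derivative^[j] (A.charpoly.map (Int.castRingHom ℚ))) = 0 := by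
        rw [hq, map_mul, hz, zero_mul]
      rw [iterate_derivative_map, aeval_def, eval₂_map,
        RingHom.ext_int ((algebraMap ℚ ℂ).comp (Int.castRingHom ℚ)) (Int.castRingHom ℂ)] at e
      rw [iterate_derivative_map, IsRoot.def, eval_map]
      exact e
    exact (pow_dvd_pow _ (by omega)).trans (pow_rootMultiplicity_dvd _ z)
  have hd1 : (minpoly ℚ μ).natDegree = 1 := by
    by_contra hne
    have hpos := minpoly.natDegree_pos hintQ
    have hsep : (minpoly ℚ μ).Separable := (minpoly.irreducible hintQ).separable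
    have hcard : Fintype.card ((minpoly ℚ μ).rootSet ℂ) = (minpoly ℚ μ).natDegree :=
      card_rootSet_eq_natDegree hsep (IsAlgClosed.splits _)
    obtain ⟨z, w, hzw⟩ := Fintype.exists_pair_of_one_lt_card (α := (minpoly ℚ μ).rootSet ℂ)
      (by omega)
    have hz := hroot z (aeval_eq_zero_of_mem_rootSet z.2)
    have hw := hroot w (aeval_eq_zero_of_mem_rootSet w.2)
    have hcop : IsCoprime ((X - C (z : ℂ)) ^ m) ((X - C (w : ℂ)) ^ m) :=
      (isCoprime_X_sub_C_of_isUnit_sub (IsUnit.mk0 _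
        (sub_ne_zero.2 fun e => hzw (Subtype.ext e)))).pow
    have hdvd := hcop.mul_dvd hz hw
    have := natDegree_le_of_dvd hdvd (hχ.map _).ne_zero
    rw [natDegree_mul (pow_ne_zero _ (X_sub_C_ne_zero _)) (pow_ne_zero _ (X_sub_C_ne_zero _)),
      natDegree_pow, natDegree_pow, natDegree_X_sub_C, natDegree_X_sub_C,
      hχ.natDegree_map, hdeg] at this
    omega
  obtain ⟨q, hq⟩ := (minpoly.natDegree_eq_one_iff.1 hd1 : μ ∈ (algebraMap ℚ ℝ).range)
  have hqi : IsIntegral ℤ q := by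
    rw [← hq] at hint
    exact (isIntegral_algebraMap_iff (algebraMap ℚ ℝ).injective).1 hint
  obtain ⟨k, hk⟩ := IsIntegrallyClosed.isIntegral_iff.1 hqi
  refine ⟨k, ?_⟩
  rw [← hq, ← hk]
  simp

end Pool.Agent.H.MP_ba31d6_gt
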