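import Pool.Agent.H.MP_ba31d6_gt.A

set_option autoImplicit false

namespace Pool.Agent.H.MP_ba31d6_gt

open Finset
open scoped RealInnerProductSpace

abbrev V := EuclideanSpace ℝ (Fin 13)

variable {ι : Type}

/-- A family of unit vectors at inner product `1/3` with `s` and `±1/3` with each other. -/
structure Fam (X : ι → V) (s : V) : Prop where
  ss : ⟪s, s⟫ = 1
  xx : ∀ i, ⟪X i, X i⟫ = 1
  xs : ∀ i, ⟪X i, s⟫ = 1 / 3
  xy : ∀ i j, i ≠ j → ⟪X i, X j⟫ = 1 / 3 ∨ ⟪X i, X j⟫ = -1 / 3

lemma Fam.inj {X : ι → V} {s : V} (h : Fam X s) : Function.Injective X := by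
  intro i j e
  by_contra hne
  have := h.xy i j hne
  rw [← e, h.xx] at this
  rcases this with h | h <;> norm_num at h

lemma Fam.card_le_one {X : ι → V} {s : V} (h : Fam X s) [Fintype ι] [DecidableEq V] (p : V) :
    (univ.filter fun i => X i = p).card ≤ 1 := by
  rw [Finset.card_le_one]
  intro a ha b hb
  apply h.inj
  rw [(mem_filter.1 ha).2, (mem_filter.1 hb).2]

lemma third {s p x y : V} (ss : ⟪s, s⟫ = 1) (pp : ⟪p, p⟫ = 1) (ps : ⟪p, s⟫ = 1 / 3)
    (xx : ⟪x, x⟫ = 1) (xs : ⟪x, s⟫ = 1 / 3) (xp : ⟪x, p⟫ = -1 / 3)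
    (yy : ⟪y, y⟫ = 1) (ys : ⟪y, s⟫ = 1 / 3) (yp : ⟪y, p⟫ = -1 / 3) (xy : ⟪x, y⟫ = -1 / 3) :
    y = s - p - x := by
  rw [← sub_eq_zero, ← inner_self_eq_zero (𝕜 := ℝ)]
  have a1 := real_inner_comm s p
  have a2 := real_inner_comm s x
  have a3 := real_inner_comm s y
  have a4 := real_inner_comm p x
  have a5 := real_inner_comm p y
  have a6 := real_inner_comm x y
  simp only [inner_sub_left, inner_sub_right]
  linarith

lemma bessel {X : ι → V} {s : V} (h : Fam X s) {p q : V} (pp : ⟪p, p⟫ = 1)
    (ps : ⟪p, s⟫ = 1 / 3) (qq : ⟪q, q⟫ = 1) (qs : ⟪q, s⟫ = 1 / 3) (qp : ⟪q, p⟫ = 1 / 3)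
    (e : ℝ) (he : e ^ 2 = 1 / 9) (U : Finset ι) (hp : ∀ u ∈ U, ⟪X u, p⟫ = -1 / 3)
    (hq : ∀ u ∈ U, ⟪X u, q⟫ = e) : U.card ≤ 5 := by
  classical
  have h1 : ∀ u ∈ U, ∀ w ∈ U, u ≠ w → ⟪X u, X w⟫ = 1 / 3 := by
    intro u hu w hw hne
    refine (h.xy u w hne).resolve_right fun hn => ?_
    have := third h.ss pp ps (h.xx u) (h.xs u) (hp u hu) (h.xx w) (h.xs w) (hp w hw) hn
    have e1 := hq w hw
    rw [this, inner_sub_left, inner_sub_left, hq u hu, real_inner_comm, qs, real_inner_comm,
      qp] at e1
    have : e = 0 := by linarith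
    rw [this] at he
    norm_num at he
  set Y := ∑ u ∈ U, X u with hY
  set m : ℝ := (U.card : ℝ) with hm
  have Ys : ⟪Y, s⟫ = m / 3 := by
    rw [hY, sum_inner, Finset.sum_congr rfl fun u _ => h.xs u]
    simp [hm, div_eq_mul_inv]
  have Yp : ⟪Y, p⟫ = -m / 3 := by
    rw [hY, sum_inner, Finset.sum_congr rfl hp]
    simp only [Finset.sum_const, nsmul_eq_mul, hm]
    ring
  have Yq : ⟪Y, q⟫ = m * e := by
    rw [hY, sum_inner, Finset.sum_congr rfl hq]
    simp [hm]
  have YY : ⟪Y, Y⟫ = m * (1 + (m - 1) / 3) := by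
    have : ∀ u ∈ U, ⟪X u, Y⟫ = 1 + (m - 1) / 3 := by
      intro u hu
      rw [hY, inner_sum, ← Finset.add_sum_erase _ _ hu, h.xx,
        Finset.sum_congr rfl fun w hw => h1 u hu w (mem_of_mem_erase hw) (ne_of_mem_erase hw).symm,
        Finset.sum_const, Finset.card_erase_of_mem hu, nsmul_eq_mul,
        Nat.cast_sub (Finset.card_pos.2 ⟨u, hu⟩)]
      simp [hm, div_eq_mul_inv]
    conv_lhs => rw [show ⟪Y, Y⟫ = ⟪∑ u ∈ U, X u, Y⟫ from rfl]
    rw [sum_inner, Finset.sum_congr rfl this, Finset.sum_const, nsmul_eq_mul]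
  have key := real_inner_self_nonneg (x := q - (1 / 4 : ℝ) • (s + p) -
    (3 * e / 4) • ((2 : ℝ) • Y - m • (s - p)))
  have a1 := real_inner_comm s p
  have a2 := real_inner_comm s q
  have a3 := real_inner_comm s Y
  have a4 := real_inner_comm p q
  have a5 := real_inner_comm p Y
  have a6 := real_inner_comm q Y
  simp only [inner_sub_left, inner_sub_right, inner_add_left, inner_add_right,
    real_inner_smul_left, inner_smul_right, ← a1, ← a2, ← a3, ← a4, ← a5, ← a6, Ys, Yp, Yq, YY,
    pp, ps, qq, qs, qp, h.ss] at key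
  have : m ≤ 5 := by
    have e2 : 0 ≤ 5 / 6 - 3 / 2 * m * e ^ 2 := by nlinarith
    rw [he] at e2
    linarith
  rw [hm] at this
  exact_mod_cast this

lemma star {X : ι → V} {s : V} (h : Fam X s) [Fintype ι] {p : V} (pp : ⟪p, p⟫ = 1)
    (ps : ⟪p, s⟫ = 1 / 3) (U : Finset ι) (hp : ∀ u ∈ U, ⟪X u, p⟫ = -1 / 3) : U.card ≤ 26 := by
  classical
  set d : ι → V := fun u => (2 : ℝ) • X u - (s - p) with hd
  have hdd : ∀ u ∈ U, ∀ w ∈ U, ⟪d u, d w⟫ = 4 * ⟪X u, X w⟫ - 4 / 3 := by
    intro u hu w hw
    have a1 := real_inner_comm s p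
    have a2 := real_inner_comm (X w) s
    have a3 := real_inner_comm (X w) p
    simp only [hd, inner_sub_left, inner_sub_right, real_inner_smul_left, inner_smul_right,
      ← a1, a2, a3, h.xs, hp u hu, hp w hw, pp, ps, h.ss]
    ring
  have h1 := welch U d
  have e1 : ∑ u ∈ U, ⟪d u, d u⟫ = U.card * (8 / 3) := by
    rw [Finset.sum_congr rfl fun u hu => hdd u hu u hu]
    simp only [h.xx, Finset.sum_const, nsmul_eq_mul]
    norm_num
  have e2 : ∀ u ∈ U, ∑ w ∈ U, ⟪d u, d w⟫ ^ 2 ≤ 2 * (64 / 9) := by
    intro u hu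
    have b1 : ∀ w ∈ U, ⟪d u, d w⟫ ^ 2 ≤
        (if X w = X u then 64 / 9 else 0) + (if X w = s - p - X u then 64 / 9 else 0) := by
      intro w hw
      rw [hdd u hu w hw]
      by_cases huw : u = w
      · subst huw
        rw [h.xx, if_pos rfl]
        split_ifs <;> norm_num
      · rcases h.xy u w huw with a | a
        · rw [a]
          split_ifs <;> norm_num
        · rw [if_pos (third h.ss pp ps (h.xx u) (h.xs u) (hp u hu) (h.xx w) (h.xs w)
            (hp w hw) a), a]
          split_ifs <;> norm_num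
    have b2 : ∀ z : V, ∑ w ∈ U, (if X w = z then (64 / 9 : ℝ) else 0) ≤ 64 / 9 := by
      intro z
      rw [← Finset.sum_filter, Finset.sum_const, nsmul_eq_mul]
      have : (U.filter fun w => X w = z).card ≤ 1 :=
        (Finset.card_le_card (Finset.filter_subset_filter _ (subset_univ U))).trans
          (h.card_le_one z)
      have : ((U.filter fun w => X w = z).card : ℝ) ≤ 1 := by exact_mod_cast this
      linarith
    have := Finset.sum_le_sum b1
    rw [Finset.sum_add_distrib] at this
    linarith [b2 (X u), b2 (s - p - X u)]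
  have e3 := Finset.sum_le_sum e2
  rw [Finset.sum_const, nsmul_eq_mul] at e3
  rw [e1, finrank_euclideanSpace_fin] at h1
  have hm : (0 : ℝ) ≤ U.card := Nat.cast_nonneg _
  have : (U.card : ℝ) ≤ 26 := by
    by_contra hc
    push Not at hc
    push_cast at h1
    nlinarith
  exact_mod_cast this

lemma dich {X : ι → V} {s : V} (h : Fam X s) [Fintype ι] {p : V} (pp : ⟪p, p⟫ = 1)
    (ps : ⟪p, s⟫ = 1 / 3) (hp : ∀ i, ⟪X i, p⟫ = 1 / 3 ∨ ⟪X i, p⟫ = -1 / 3 ∨ X i = p) :
    Fintype.card ι ≤ 27 ∨ (univ.filter fun i => ⟪X i, p⟫ = -1 / 3).card ≤ 10 := by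
  classical
  by_cases hq : ∃ q, ⟪X q, p⟫ = 1 / 3
  · right
    obtain ⟨q, hq⟩ := hq
    set U := univ.filter fun i => ⟪X i, p⟫ = -1 / 3 with hU
    have hUp : ∀ u ∈ U, ⟪X u, p⟫ = -1 / 3 := fun u hu => (mem_filter.1 hu).2
    have b1 := bessel h pp ps (h.xx q) (h.xs q) hq (1 / 3) (by norm_num)
      (U.filter fun u => ⟪X u, X q⟫ = 1 / 3) (fun u hu => hUp u (mem_filter.1 hu).1)
      (fun u hu => (mem_filter.1 hu).2)
    have b2 := bessel h pp ps (h.xx q) (h.xs q) hq (-1 / 3) (by norm_num)
      (U.filter fun u => ¬ ⟪X u, X q⟫ = 1 / 3) (fun u hu => hUp u (mem_filter.1 hu).1)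
      (fun u hu => (h.xy u q (by
        rintro rfl
        have := hUp u (mem_filter.1 hu).1
        rw [hq] at this
        norm_num at this)).resolve_left (mem_filter.1 hu).2)
    have := Finset.card_filter_add_card_filter_not (s := U) (fun u => ⟪X u, X q⟫ = 1 / 3)
    omega
  · left
    push Not at hq
    have b1 := star h pp ps (univ.filter fun i => ⟪X i, p⟫ = -1 / 3)
      (fun u hu => (mem_filter.1 hu).2)
    have b2 := h.card_le_one p
    have : (univ : Finset ι) ⊆ (univ.filter fun i => ⟪X i, p⟫ = -1 / 3) ∪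
        (univ.filter fun i => X i = p) := by
      intro i _
      rcases hp i with a | a | a
      · exact absurd a (hq i)
      · exact mem_union_left _ (mem_filter.2 ⟨mem_univ _, a⟩)
      · exact mem_union_right _ (mem_filter.2 ⟨mem_univ _, a⟩)
    have := (Finset.card_le_card this).trans (Finset.card_union_le _ _)
    rw [Finset.card_univ] at this
    omega

lemma Fam.card_le {X : ι → V} {s : V} (h : Fam X s) [Fintype ι] : Fintype.card ι ≤ 30 := by
  classical
  by_cases hab : ∃ a b, ⟪X a, X b⟫ = -1 / 3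
  · obtain ⟨a, b, hab⟩ := hab
    have hpt : ∀ a i, ⟪X i, X a⟫ = 1 / 3 ∨ ⟪X i, X a⟫ = -1 / 3 ∨ X i = X a := by
      intro a i
      by_cases e : i = a
      · simp [e]
      · rcases h.xy i a e with e | e <;> simp [e]
    have a1 := real_inner_comm s (X a)
    have a2 := real_inner_comm s (X b)
    have a3 := real_inner_comm (X a) (X b)
    have a4 := h.xs a
    have a5 := h.xs b
    have a6 := h.xx a
    have a7 := h.xx b
    have a8 := h.ss
    have ww : ⟪s - X a - X b, s - X a - X b⟫ = 1 := by
      simp only [inner_sub_left, inner_sub_right]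
      linarith
    have ws : ⟪s - X a - X b, s⟫ = 1 / 3 := by
      simp only [inner_sub_left]
      linarith
    have hw : ∀ i, ⟪X i, s - X a - X b⟫ = 1 / 3 - ⟪X i, X a⟫ - ⟪X i, X b⟫ := by
      intro i
      simp only [inner_sub_right, h.xs]
    have hw2 : ∀ i, ⟪X i, s - X a - X b⟫ = 1 / 3 ∨ ⟪X i, s - X a - X b⟫ = -1 / 3 ∨
        X i = s - X a - X b := by
      intro i
      rw [hw]
      rcases hpt a i with e | e | e
      · rcases hpt b i with f | f | f
        · right; left; linarith
        · left; linarith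
        · right; left; rw [f]; linarith
      · rcases hpt b i with f | f | f
        · left; linarith
        · right; right
          exact third h.ss a6 a4 a7 a5 (by linarith) (h.xx i) (h.xs i) e
            (by rw [real_inner_comm]; exact f)
        · right; left; rw [f]; linarith
      · right; left; rw [e]; linarith
    rcases dich h a6 a4 (hpt a) with c1 | c1
    · omega
    rcases dich h a7 a5 (hpt b) with c2 | c2
    · omega
    rcases dich h ww ws hw2 with c3 | c3
    · omega
    have : (univ : Finset ι) ⊆ ((univ.filter fun i => ⟪X i, X a⟫ = -1 / 3) ∪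
        (univ.filter fun i => ⟪X i, X b⟫ = -1 / 3)) ∪
        (univ.filter fun i => ⟪X i, s - X a - X b⟫ = -1 / 3) := by
      intro i _
      simp only [mem_union, mem_filter, mem_univ, true_and, hw]
      rcases hpt a i with e | e | e
      · rcases hpt b i with f | f | f
        · right; linarith
        · left; right; exact f
        · left; left; rw [f]; linarith
      · left; left; exact e
      · left; right; rw [e]; exact hab
    have := (Finset.card_le_card this).trans ((Finset.card_union_le _ _).trans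
      (Nat.add_le_add_right (Finset.card_union_le _ _) _))
    rw [Finset.card_univ] at this
    omega
  · push Not at hab
    have hli : LinearIndependent ℝ X := by
      rw [Fintype.linearIndependent_iff]
      intro g hg
      have e1 : ∀ j, 2 / 3 * g j + (∑ i, g i) / 3 = 0 := by
        intro j
        have := congrArg (fun z => ⟪z, X j⟫) hg
        simp only [sum_inner, real_inner_smul_left, inner_zero_left] at this
        have e : ∀ i, g i * ⟪X i, X j⟫ = g i / 3 + if i = j then 2 / 3 * g j else 0 := by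
          intro i
          split_ifs with hij
          · rw [hij, h.xx]; ring
          · rw [(h.xy i j hij).resolve_right (hab i j)]; ring
        simp only [e, Finset.sum_add_distrib, Finset.sum_ite_eq', mem_univ, if_true,
          ← Finset.sum_div] at this
        linarith
      have e2 : ∑ j, (2 / 3 * g j + (∑ i, g i) / 3) = 0 := Finset.sum_eq_zero fun j _ => e1 j
      rw [Finset.sum_add_distrib, ← Finset.mul_sum, Finset.sum_const, nsmul_eq_mul] at e2
      have e3 : (2 + ((univ : Finset ι).card : ℝ)) * ∑ i, g i = 0 := by linarith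
      have e4 : ∑ i, g i = 0 := (mul_eq_zero.1 e3).resolve_left (by positivity)
      intro j
      have := e1 j
      rw [e4] at this
      linarith
    have := hli.fintype_card_le_finrank
    rw [finrank_euclideanSpace_fin] at this
    omega

theorem no33 (v : Fin 33 → V) (c : ℝ) (hc : c < 1) (h1 : ∀ i, ‖v i‖ = 1)
    (h2 : ∀ i j, i ≠ j → |⟪v i, v j⟫| = c) : False := by
  classical
  have h1' : ∀ i, ⟪v i, v i⟫ = 1 := fun i => by rw [real_inner_self_eq_norm_sq, h1]; norm_num
  have hc0 : 0 ≤ c := by rw [← h2 0 1 (by decide)]; exact abs_nonneg _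
  have hc5 : 1 / 5 < c := by
    by_contra hle
    push Not at hle
    have := relbound (by norm_num) v c h1' h2
    rw [finrank_euclideanSpace_fin] at this
    push_cast at this
    nlinarith
  have hcp : 0 < c := by linarith
  set A : Matrix (Fin 33) (Fin 33) ℤ := fun i j => if ⟪v i, v j⟫ < 0 then 1 else 0 with hA
  have hG : ∀ i j, ⟪v i, v j⟫ = c - 2 * c * (A i j : ℝ) + if i = j then 1 - c else 0 := by
    intro i j
    by_cases hij : i = j
    · subst hij
      simp [hA, h1, not_lt.2 (zero_le_one (α := ℝ))]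
    · have := h2 i j hij
      by_cases hn : ⟪v i, v j⟫ < 0
      · rw [abs_of_neg hn] at this
        simp only [hA, hn, hij, if_true, if_false]
        push_cast
        linarith
      · rw [abs_of_nonneg (not_lt.1 hn)] at this
        simp only [hA, hn, hij, if_false]
        push_cast
        linarith
  set L : (Fin 33 → ℝ) →ₗ[ℝ] V × ℝ :=
    (Fintype.linearCombination ℝ v).prod (Fintype.linearCombination ℝ fun _ => (1 : ℝ)) with hL
  have hker : 19 ≤ Module.finrank ℝ (LinearMap.ker L) := by
    have a1 := L.finrank_range_add_finrank_ker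
    have a2 : Module.finrank ℝ (LinearMap.range L) ≤ Module.finrank ℝ (V × ℝ) :=
      Submodule.finrank_le _
    rw [Module.finrank_prod, finrank_euclideanSpace_fin, Module.finrank_self] at a2
    rw [Module.finrank_fin_fun] at a1
    omega
  have hle : LinearMap.ker L ≤
      Module.End.eigenspace (Matrix.toLin' (A.map (Int.castRingHom ℝ))) ((1 - c) / (2 * c)) := by
    intro a ha
    have ha1 : ∑ j, a j • v j = 0 := by
      have := congrArg Prod.fst (LinearMap.mem_ker.1 ha)
      simpa [hL, Fintype.linearCombination_apply] using this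
    have ha2 : ∑ j, a j = 0 := by
      have := congrArg Prod.snd (LinearMap.mem_ker.1 ha)
      simpa [hL, Fintype.linearCombination_apply] using this
    rw [Module.End.mem_eigenspace_iff]
    ext i
    have := congrArg (fun z => ⟪v i, z⟫) ha1
    simp only [inner_sum, inner_smul_right, inner_zero_right, hG] at this
    have e : ∀ j, a j * (c - 2 * c * (A i j : ℝ) + if i = j then 1 - c else 0) =
        c * a j - 2 * c * ((A i j : ℝ) * a j) + if i = j then (1 - c) * a j else 0 := by
      intro j
      split_ifs <;> ring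
    simp only [e, Finset.sum_add_distrib, Finset.sum_sub_distrib, ← Finset.mul_sum, ha2,
      Finset.sum_ite_eq, mem_univ, if_true] at this
    simp only [Matrix.toLin'_apply, Matrix.mulVec, dotProduct, Matrix.map_apply, eq_intCast,
      Pi.smul_apply, smul_eq_mul]
    field_simp
    linarith
  obtain ⟨k, hk⟩ := neumann A _ 19 (by norm_num) (hker.trans (Submodule.finrank_mono hle))
  have hk' : 1 - c = 2 * c * k := by
    field_simp at hk
    linarith
  have k1 : (0 : ℝ) < k := by
    by_contra hn
    push Not at hn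
    nlinarith
  have k2 : (k : ℝ) < 2 := by
    by_contra hn
    push Not at hn
    nlinarith
  have k3 : k = 1 := by
    have : 0 < k := by exact_mod_cast k1
    have : k < 2 := by exact_mod_cast k2
    omega
  have hc3 : c = 1 / 3 := by
    rw [k3] at hk'
    push_cast at hk'
    linarith
  set σ : Fin 32 → ℝ := fun i => 3 * ⟪v i.succ, v 0⟫ with hσ
  have hpm : ∀ i j, i ≠ j → ⟪v i, v j⟫ = 1 / 3 ∨ ⟪v i, v j⟫ = -1 / 3 := by
    intro i j hij
    have := h2 i j hij
    rw [hc3] at this
    rcases (abs_eq (by norm_num)).1 this with e | e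
    · exact Or.inl e
    · right; linarith
  have hσ1 : ∀ i, σ i = 1 ∨ σ i = -1 := by
    intro i
    rcases hpm i.succ 0 (Fin.succ_ne_zero i) with e | e <;> simp only [hσ, e] <;> norm_num
  have hF : Fam (fun i : Fin 32 => σ i • v i.succ) (v 0) := by
    refine ⟨h1' 0, fun i => ?_, fun i => ?_, fun i j hij => ?_⟩
    · rw [real_inner_smul_left, inner_smul_right, h1']
      rcases hσ1 i with e | e <;> rw [e] <;> norm_num
    · rw [real_inner_smul_left]
      rcases hpm i.succ 0 (Fin.succ_ne_zero i) with e | e <;> simp only [hσ, e] <;> norm_num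
    · rw [real_inner_smul_left, inner_smul_right]
      rcases hσ1 i with e | e <;> rcases hσ1 j with f | f <;>
        rcases hpm i.succ j.succ (fun h => hij (Fin.succ_injective _ h)) with g | g <;>
        rw [e, f, g] <;> norm_num
  have := hF.card_le
  simp at this

end Pool.Agent.H.MP_ba31d6_gt
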