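import Pool.Agent.H.MP_ba31d6_gt.B

set_option autoImplicit false

namespace Pool.Agent.H.MP_ba31d6_gt

open Finset
open scoped RealInnerProductSpace

def tA : List (List ℤ) := [[0, 0, 0, 0, 0, 0, 0, 1, 1, 0, 1, 0, 0],
  [0, 0, 0, 0, 0, 0, 0, 1, 1, 0, -1, 0, 0],
  [0, 0, 0, 0, 0, 0, 0, 1, -1, 0, 1, 0, 0],
  [0, 0, 0, 0, 0, 0, 0, 1, -1, 0, -1, 0, 0],
  [0, 0, 0, 0, 0, 0, 0, 0, 1, 1, 0, 1, 0],
  [0, 0, 0, 0, 0, 0, 0, 0, 1, 1, 0, -1, 0],
  [0, 0, 0, 0, 0, 0, 0, 0, 1, -1, 0, 1, 0],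
  [0, 0, 0, 0, 0, 0, 0, 0, 1, -1, 0, -1, 0],
  [0, 0, 0, 0, 0, 0, 0, 0, 0, 1, 1, 0, 1],
  [0, 0, 0, 0, 0, 0, 0, 0, 0, 1, 1, 0, -1],
  [0, 0, 0, 0, 0, 0, 0, 0, 0, 1, -1, 0, 1],
  [0, 0, 0, 0, 0, 0, 0, 0, 0, 1, -1, 0, -1],
  [0, 0, 0, 0, 0, 0, 0, 1, 0, 0, 0, 1, 1],
  [0, 0, 0, 0, 0, 0, 0, -1, 0, 0, 0, 1, 1],
  [0, 0, 0, 0, 0, 0, 0, 1, 0, 0, 0, 1, -1],
  [0, 0, 0, 0, 0, 0, 0, -1, 0, 0, 0, 1, -1],
  [0, 0, 0, 0, 0, 0, 0, 1, 1, 0, 1, 0, 0]]

def tB : List (List ℤ) := [[1, 1, 0, 1, 0, 0, 0, 0, 0, 0, 0, 0, 0],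
  [1, 1, 0, -1, 0, 0, 0, 0, 0, 0, 0, 0, 0],
  [1, -1, 0, 1, 0, 0, 0, 0, 0, 0, 0, 0, 0],
  [1, -1, 0, -1, 0, 0, 0, 0, 0, 0, 0, 0, 0],
  [0, 1, 1, 0, 1, 0, 0, 0, 0, 0, 0, 0, 0],
  [0, 1, 1, 0, -1, 0, 0, 0, 0, 0, 0, 0, 0],
  [0, 1, -1, 0, 1, 0, 0, 0, 0, 0, 0, 0, 0],
  [0, 1, -1, 0, -1, 0, 0, 0, 0, 0, 0, 0, 0],
  [0, 0, 1, 1, 0, 1, 0, 0, 0, 0, 0, 0, 0],
  [0, 0, 1, 1, 0, -1, 0, 0, 0, 0, 0, 0, 0],
  [0, 0, 1, -1, 0, 1, 0, 0, 0, 0, 0, 0, 0],
  [0, 0, 1, -1, 0, -1, 0, 0, 0, 0, 0, 0, 0],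
  [0, 0, 0, 1, 1, 0, 1, 0, 0, 0, 0, 0, 0],
  [0, 0, 0, 1, 1, 0, -1, 0, 0, 0, 0, 0, 0],
  [0, 0, 0, 1, -1, 0, 1, 0, 0, 0, 0, 0, 0],
  [0, 0, 0, 1, -1, 0, -1, 0, 0, 0, 0, 0, 0],
  [1, 0, 0, 0, 1, 1, 0, 0, 0, 0, 0, 0, 0]]

def tb (b : Bool) (i : Fin 17) (a : Fin 13) : ℤ := (((if b then tA else tB).getD i []).getD a 0)

def dt (b : Bool) (i : Fin 17) (c : Bool) (j : Fin 17) : ℤ := ∑ a : Fin 13, tb b i a * tb c j a

lemma dt_self : ∀ b i, dt b i b i = 3 := by decide +kernel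
lemma dt_cross : ∀ b c i j, b ≠ c → dt b i c j = 0 := by decide +kernel
lemma dt_same : ∀ b i j, i ≠ j → (b = true → i ≠ 16 ∧ j ≠ 16) → |dt b i b j| = 1 := by
  decide +kernel

noncomputable def vec (b : Bool) (i : Fin 17) : V :=
  WithLp.toLp 2 fun a : Fin 13 => (tb b i a : ℝ) / Real.sqrt 3

lemma inner_vec (b : Bool) (i : Fin 17) (c : Bool) (j : Fin 17) :
    ⟪vec b i, vec c j⟫ = (dt b i c j : ℝ) / 3 := by
  have h : Real.sqrt 3 * Real.sqrt 3 = 3 := Real.mul_self_sqrt (by norm_num)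
  simp only [PiLp.inner_apply, vec, dt, Int.cast_sum, Int.cast_mul, Finset.sum_div]
  refine Finset.sum_congr rfl fun a _ => ?_
  simp only [RCLike.inner_apply, conj_trivial]
  rw [div_mul_div_comm, h, mul_comm]

lemma norm_vec (b : Bool) (i : Fin 17) : ‖vec b i‖ = 1 := by
  have h : ‖vec b i‖ ^ 2 = 1 ^ 2 := by
    rw [← real_inner_self_eq_norm_sq, inner_vec, dt_self]
    norm_num
  exact (pow_left_inj₀ (norm_nonneg _) zero_le_one two_ne_zero).1 h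

/-- Two blocks of 17 points. -/
def M : Type := Bool × Fin 17

instance : DecidableEq M := inferInstanceAs (DecidableEq (Bool × Fin 17))
instance : Fintype M := inferInstanceAs (Fintype (Bool × Fin 17))

noncomputable def dM (x y : M) : ℝ :=
  if x = y then 0 else if x.1 = y.1 then Real.arccos (1 / 3) else Real.pi / 2

lemma ac_le : Real.arccos (1 / 3) ≤ Real.pi / 2 := Real.arccos_le_pi_div_two.2 (by norm_num)

lemma le_ac : Real.pi / 3 ≤ Real.arccos (1 / 3) := by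
  have h : Real.arccos (1 / 2) = Real.pi / 3 := by
    rw [← Real.cos_pi_div_three]
    exact Real.arccos_cos (by positivity) (by linarith [Real.pi_pos])
  rw [← h]
  exact Real.arccos_le_arccos (by norm_num)

lemma dM_le (x y : M) : dM x y ≤ Real.pi / 2 := by
  unfold dM
  split_ifs
  · positivity
  · exact ac_le
  · exact le_rfl

lemma le_dM {x y : M} (h : x ≠ y) : Real.pi / 3 ≤ dM x y := by
  unfold dM
  rw [if_neg h]
  split_ifs
  · exact le_ac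
  · linarith [Real.pi_pos]

lemma dM_self (x : M) : dM x x = 0 := if_pos rfl

noncomputable instance : MetricSpace M where
  dist := dM
  dist_self := dM_self
  dist_comm x y := by
    unfold dM
    simp only [eq_comm (a := x), eq_comm (a := x.1)]
  dist_triangle x y z := by
    by_cases h1 : x = y
    · subst h1
      simp [dM_self]
    by_cases h2 : y = z
    · subst h2
      simp [dM_self]
    linarith [dM_le x z, le_dM h1, le_dM h2, Real.pi_pos]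
  eq_of_dist_eq_zero {x y} h := by
    by_contra hne
    have h' : dM x y = 0 := h
    linarith [le_dM hne, Real.pi_pos]

lemma dist_M (x y : M) : dist x y = dM x y := rfl

lemma dM_same (x y : M) (h : x.2 ≠ y.2) (h' : x.1 = y.1) : dM x y = Real.arccos (1 / 3) := by
  unfold dM
  rw [if_neg (fun e => h (by rw [e])), if_pos h']

lemma dM_cross (x y : M) (h' : x.1 ≠ y.1) : dM x y = Real.pi / 2 := by
  unfold dM
  rw [if_neg (fun e => h' (by rw [e])), if_neg h']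

lemma embed_small (s : Finset M) (hs : s.card ≤ 33) :
    ∃ f : M → V, (∀ x ∈ s, ‖f x‖ = 1) ∧
      ∀ x ∈ s, ∀ y ∈ s, Real.arccos |⟪f x, f y⟫| = dist x y := by
  have hc : Fintype.card M = 34 := by
    show Fintype.card (Bool × Fin 17) = 34
    simp
  obtain ⟨z, -, hz⟩ := Finset.exists_mem_notMem_of_card_lt_card (s := s) (t := univ)
    (by rw [Finset.card_univ, hc]; omega)
  refine ⟨fun x => vec (decide (x.1 = z.1)) (Equiv.swap z.2 16 x.2), fun x _ => norm_vec _ _,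
    fun x hx y hy => ?_⟩
  rw [dist_M, inner_vec]
  unfold dM
  have h16 : ∀ w ∈ s, w.1 = z.1 → Equiv.swap z.2 16 w.2 ≠ 16 := by
    intro w hw h1 h2
    rw [Equiv.swap_apply_eq_iff, Equiv.swap_apply_right] at h2
    exact hz ((Prod.ext h1 h2 : w = z) ▸ hw)
  split_ifs with h1 h2
  · subst h1
    rw [dt_self]
    simp
  · have h3 : x.2 ≠ y.2 := fun e => h1 (Prod.ext h2 e)
    have := dt_same (decide (x.1 = z.1)) (Equiv.swap z.2 16 x.2) (Equiv.swap z.2 16 y.2)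
      (fun e => h3 ((Equiv.swap z.2 16).injective e))
      (fun e => ⟨h16 x hx (of_decide_eq_true e), h16 y hy (h2 ▸ of_decide_eq_true e)⟩)
    rw [← h2, abs_div, ← Int.cast_abs, this]
    norm_num
  · rw [dt_cross]
    · simp
    · revert h2
      cases x.1 <;> cases y.1 <;> cases z.1 <;> simp

lemma not_embed (f : M → V) (h1 : ∀ x, ‖f x‖ = 1)
    (h2 : ∀ x y, Real.arccos |⟪f x, f y⟫| = dist x y) : False := by
  have h3 : ∀ x y, |⟪f x, f y⟫| = Real.cos (dM x y) := by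
    intro x y
    rw [← dist_M, ← h2, Real.cos_arccos (by linarith [abs_nonneg ⟪f x, f y⟫])]
    have := abs_real_inner_le_norm (f x) (f y)
    rwa [h1, h1, one_mul] at this
  set W : Bool → Submodule ℝ V :=
    fun b => Submodule.span ℝ (Set.range fun i : Fin 17 => f (b, i)) with hW
  have h7 : ∀ b, 7 ≤ Module.finrank ℝ (W b) := by
    intro b
    have := relbound (V := W b) (n := 17) (by norm_num)
      (fun i => ⟨f (b, i), Submodule.subset_span ⟨i, rfl⟩⟩) (1 / 3)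
      (fun i => by
        rw [Submodule.coe_inner, real_inner_self_eq_norm_sq, h1]
        norm_num)
      (fun i j hij => by
        rw [Submodule.coe_inner, h3, dM_same (b, i) (b, j) hij rfl,
          Real.cos_arccos (by norm_num) (by norm_num)])
    have h : (6 : ℝ) < Module.finrank ℝ (W b) := by
      push_cast at this
      linarith
    exact_mod_cast h
  have hle : W false ≤ (W true)ᗮ := by
    refine Submodule.isOrtho_iff_le.1 (Submodule.isOrtho_span.2 ?_)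
    rintro _ ⟨i, rfl⟩ _ ⟨j, rfl⟩
    have := h3 (false, i) (true, j)
    rw [dM_cross (false, i) (true, j) Bool.false_ne_true, Real.cos_pi_div_two] at this
    exact abs_eq_zero.1 this
  have a1 := Submodule.finrank_mono hle
  have a2 := (W true).finrank_add_finrank_orthogonal
  rw [finrank_euclideanSpace_fin] at a2
  have := h7 true
  have := h7 false
  omega

lemma bound {n : ℕ} (h : ∃ v : Fin n → V, ∃ c : ℝ, c < 1 ∧ (∀ i, ‖v i‖ = 1) ∧
    ∀ i j, i ≠ j → |⟪v i, v j⟫| = c) : n ≤ 32 := by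
  by_contra hn
  have hn' : 33 ≤ n := by omega
  obtain ⟨v, c, hc, h1, h2⟩ := h
  exact no33 (fun i => v (Fin.castLE hn' i)) c hc (fun i => h1 _)
    fun i j hij => h2 _ _ fun e => hij (Fin.castLE_injective hn' e)

end Pool.Agent.H.MP_ba31d6_gt
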